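import Pool.Agent.helper21.BEY.SpecB

set_option autoImplicit false

open Complex MeasureTheory

namespace Pool.Agent.BEY

open Pool.Agent.helper84.DM Pool.Agent.helper78.ED Pool.Agent.DH Pool.Agent.LDH

theorem TEL_step (h0 : ∀ x, 3 / 2 ≤ x → phi x = 0) (M : ℝ) (s : ℂ) (hM : 0 < M) :
    Ph (4 / 3 * M) s = Ph M s + Ps M s := by
  unfold Ph Ps
  have hsub : Finset.Icc 1 ⌊2 * M⌋₊ ⊆ Finset.Icc 1 ⌊2 * (4 / 3 * M)⌋₊ := by
    apply Finset.Icc_subset_Icc le_rfl
    apply Nat.floor_le_floor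
    nlinarith
  rw [← Finset.sum_subset hsub, ← Finset.sum_add_distrib]
  · apply Finset.sum_congr rfl
    intro n _
    have e : (n : ℝ) / (4 / 3 * M) = 3 * ((n : ℝ) / M) / 4 := by
      field_simp
    rw [e, ← add_mul, psi]
    push_cast
    ring
  · intro n hn hn'
    rw [Finset.mem_Icc] at hn hn'
    have h1 : ⌊2 * M⌋₊ < n := by
      by_contra hc
      exact hn' ⟨hn.1, not_lt.mp hc⟩
    have h2 : 2 * M < n := (Nat.floor_lt (by positivity)).mp h1
    have h3 : 3 / 2 ≤ (n : ℝ) / (4 / 3 * M) := by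
      rw [le_div_iff₀ (by positivity)]
      nlinarith
    rw [h0 _ h3]
    simp

theorem TEL (hPHF : PHF_stmt) : TEL_stmt := by
  intro Y J s hY
  obtain ⟨_, h0, _⟩ := hPHF
  induction J with
  | zero => simp
  | succ J ih =>
    have e : (4 / 3 : ℝ) ^ (J + 1) * Y = 4 / 3 * ((4 / 3) ^ J * Y) := by
      rw [pow_succ]; ring
    rw [e, TEL_step h0 _ s (by positivity), ih, Finset.sum_range_succ, add_assoc]

end Pool.Agent.BEY
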